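import Mathlib
import Pool.Agent.MP_c98b3a_gt.cf.All
import Pool.Agent.MP_c98b3a_gt.cf.Defs2

/-!
In all large dimensions `m`, Perelman's entropy of a metric `e^{2 s} g_round` on `S^m` is at most
`log Θ_m`, with equality only if `e^{-s}` is the restriction of an affine function, that is, only
if the metric is round.
-/

open scoped Manifold ContDiff
open Pool.Agent.MP_c98b3a_gt Pool.Agent.MP_c98b3a_gt.CF

namespace Pool.Agent.Results.MP_c98b3a_gt.ConformalLarge

theorem result : ∃ m0 : ℕ, ∀ m ≥ m0, ∀ (g : Metrics 𝓘(ℝ, Euc (Fin m)) (Sphere m))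
    (s : Sphere m → ℝ), Conformal g incl s →
      entNu g ≤ (Real.log (theta m) : ℝ) ∧ (entNu g = (Real.log (theta m) : ℝ) →
        ∃ (a : ℝ) (b : Euc (Fin (m + 1))), ∀ x, Real.exp (-s x) = a - inner ℝ b (incl x)) :=
  main one_all (abs_ prj gap mom) bal geo_all gam_

end Pool.Agent.Results.MP_c98b3a_gt.ConformalLarge
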