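import Mathlib
import Pool.Agent.MP_c98b3a_gt.Final

/-!
Perelman's entropy of a toric almost Kaehler metric on a closed `2n`-manifold is at most
`log (2 / e)`, the entropy of the round 2-sphere.
-/

open scoped Manifold ContDiff
open Pool.Agent.MP_c98b3a_gt

namespace Pool.Agent.Results.MP_c98b3a_gt.ToricSymplectic

universe u

theorem result (n : ℕ) (hn : 0 < n) (M : Type u) [TopologicalSpace M] [T2Space M] [CompactSpace M]
    [ChartedSpace (Euc (Fin n ⊕ Fin n)) M] [IsManifold 𝓘(ℝ, Euc (Fin n ⊕ Fin n)) ∞ M]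
    [MeasurableSpace M] [BorelSpace M] (g : Metrics 𝓘(ℝ, Euc (Fin n ⊕ Fin n)) M)
    (d : ℕ) (v : Fin d → Fin n → ℤ) (c : Fin d → ℝ) (H : Euc (Fin n) → Matrix (Fin n) (Fin n) ℝ)
    (hH : Labelled (fun k i => (v k i : ℝ)) c H)
    (hg : ActionAngle g (poly (fun k i => (v k i : ℝ)) c) H H) :
    entNu g ≤ (Real.log (2 / Real.exp 1) : ℝ) := by
  obtain ⟨n, rfl⟩ := Nat.exists_eq_succ_of_ne_zero hn.ne'
  exact nu_le_symp g hH hg

end Pool.Agent.Results.MP_c98b3a_gt.ToricSymplectic
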